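import Pool.Agent.H32.S36.Targets

set_option autoImplicit false

namespace Pool.Agent.H32.S36

namespace BPPaux

theorem ch_neg_one (p : ℕ) [hp : Fact p.Prime] (i : ℕ) (hi : i < p) :
    (((p - 1).choose i : ℕ) : ZMod p) = (-1) ^ i := by
  induction i with
  | zero => simp
  | succ i ih =>
    have h1 := ih (by omega)
    have h2 : p.choose (i + 1) = (p - 1).choose i + (p - 1).choose (i + 1) := by
      have e : p = (p - 1) + 1 := by omega
      rw [show p.choose (i + 1) = ((p - 1) + 1).choose (i + 1) by rw [← e]]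
      exact Nat.choose_succ_succ _ _
    have h3 : ((p.choose (i + 1) : ℕ) : ZMod p) = 0 := by
      rw [ZMod.natCast_eq_zero_iff]
      exact hp.out.dvd_choose_self (by omega) hi
    rw [h2] at h3
    push_cast at h3
    rw [h1] at h3
    rw [pow_succ]
    linear_combination h3

theorem ch_one (p : ℕ) [hp : Fact p.Prime] (j : ℕ) (hj : j < p) :
    (((p + j).choose j : ℕ) : ZMod p) = 1 := by
  have h := Choose.choose_modEq_choose_mod_mul_choose_div_nat (p := p) (n := p + j) (k := j)
  have hp1 := hp.out.one_lt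
  have e1 : (p + j) % p = j := by
    rw [Nat.add_mod_left]; exact Nat.mod_eq_of_lt hj
  have e2 : j % p = j := Nat.mod_eq_of_lt hj
  have e3 : j / p = 0 := Nat.div_eq_of_lt hj
  rw [e1, e2, e3] at h
  simp only [Nat.choose_self, Nat.choose_zero_right, mul_one] at h
  have := (ZMod.natCast_eq_natCast_iff _ _ p).2 h
  simpa using this

/-- the sum `∑ 36^i C(i, n-i)` -/
theorem lucsum (n : ℕ) : ∑ i ∈ Finset.range (n + 1), (36 : ℤ) ^ i * ((i.choose (n - i) : ℕ) : ℤ) =
    lucU 36 (-36) (n + 1) ∧
    ∑ i ∈ Finset.range (n + 2), (36 : ℤ) ^ i * ((i.choose (n + 1 - i) : ℕ) : ℤ) =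
    lucU 36 (-36) (n + 2) := by
  induction n with
  | zero =>
    constructor
    · simp [lucU]
    · simp [Finset.sum_range_succ, lucU]
  | succ n ih =>
    refine ⟨ih.2, ?_⟩
    have e : lucU 36 (-36) (n + 1 + 2) = 36 * lucU 36 (-36) (n + 2) - (-36) * lucU 36 (-36) (n + 1) := rfl
    rw [e, ← ih.1, ← ih.2]
    rw [Finset.sum_range_succ' _ (n + 2)]
    have h0 : (0 : ℕ).choose (n + 1 + 1 - 0) = 0 := by simp
    rw [h0]
    rw [Finset.sum_range_succ _ (n + 1), Finset.sum_range_succ _ (n + 1)]
    have e1 : ∑ x ∈ Finset.range (n + 1), (36 : ℤ) ^ (x + 1) * (((x + 1).choose (n + 1 + 1 - (x + 1)) : ℕ) : ℤ)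
        = 36 * ∑ i ∈ Finset.range (n + 1), (36 : ℤ) ^ i * ((i.choose (n + 1 - i) : ℕ) : ℤ) +
          36 * ∑ i ∈ Finset.range (n + 1), (36 : ℤ) ^ i * ((i.choose (n - i) : ℕ) : ℤ) := by
      rw [Finset.mul_sum, Finset.mul_sum, ← Finset.sum_add_distrib]
      refine Finset.sum_congr rfl fun x hx => ?_
      have hx' : x ≤ n := by have := Finset.mem_range.1 hx; omega
      have a1 : n + 1 + 1 - (x + 1) = (n - x) + 1 := by omega
      have a2 : n + 1 - x = (n - x) + 1 := by omega
      rw [a1, a2, Nat.choose_succ_succ]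
      push_cast
      ring
    rw [e1]
    simp only [Nat.sub_self, Nat.choose_zero_right, Nat.cast_one, Nat.cast_zero, mul_zero, add_zero,
      mul_one]
    ring

end BPPaux

open BPPaux in
theorem m_BPP (h1 : T_BID) (h2 : T_LUC) : T_BPP := by
  intro p hp hp7
  have : Fact p.Prime := ⟨hp⟩
  have hp2 : p ≠ 2 := by omega
  let F : ℤ := ∑ i ∈ Finset.range p, (((p - 1).choose i : ℕ) : ℤ) * 36 ^ i *
    ∑ j ∈ Finset.range (i + 1),
      ((i.choose j * (i + j).choose j * (p + j).choose j * p.choose (i + 1 + j) : ℕ) : ℤ)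
  have hF : BB p = p * F := by
    simp only [BB, F]
    rw [Finset.mul_sum]
    refine Finset.sum_congr rfl fun i _ => ?_
    rw [h1 p i]
    ring
  have hFc : (F : ZMod p) = ((lucU 36 (-36) p : ℤ) : ZMod p) := by
    obtain ⟨n, hn⟩ : ∃ n, p = n + 1 := ⟨p - 1, by omega⟩
    have hl := (lucsum n).1
    rw [← hn] at hl
    rw [← hl]
    simp only [F]
    push_cast
    refine Finset.sum_congr rfl fun i hi => ?_
    have hip : i < p := Finset.mem_range.1 hi
    have hin : i ≤ n := by omega
    rcases le_or_gt (n - i) i with hc | hc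
    · rw [Finset.sum_eq_single (n - i)]
      · have e1 : i + 1 + (n - i) = p := by omega
        have e2 : i + (n - i) = p - 1 := by omega
        rw [e1, e2, Nat.choose_self, ch_one p (n - i) (by omega)]
        have e3 : (p - 1).choose (n - i) = (p - 1).choose i := by
          have := Nat.choose_symm (n := p - 1) (k := i) (by omega)
          rw [← this]
          congr 1
          omega
        rw [e3, ch_neg_one p i hip]
        push_cast
        have h : ((-1 : ZMod p) ^ i) * (-1) ^ i = 1 := by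
          rw [← mul_pow]; simp
        linear_combination (36 ^ i * ((i.choose (n - i) : ℕ) : ZMod p)) * h
      · intro j hj hne
        have : ((p.choose (i + 1 + j) : ℕ) : ZMod p) = 0 := by
          rcases lt_or_ge p (i + 1 + j) with h | h
          · rw [Nat.choose_eq_zero_of_lt h]; simp
          · rw [ZMod.natCast_eq_zero_iff]
            exact hp.dvd_choose_self (by omega) (by omega)
        rw [this, mul_zero]
      · intro h
        exfalso
        exact h (Finset.mem_range.2 (by omega))
    · rw [Finset.sum_eq_zero, Nat.choose_eq_zero_of_lt hc]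
      · simp
      · intro j hj
        have hj' := Finset.mem_range.1 hj
        have : ((p.choose (i + 1 + j) : ℕ) : ZMod p) = 0 := by
          rw [ZMod.natCast_eq_zero_iff]
          exact hp.dvd_choose_self (by omega) (by omega)
        rw [this, mul_zero]
  have hL := h2 p hp hp2 36 (-36)
  have hL' : ((lucU 36 (-36) p : ℤ) : ZMod p) = (10 : ZMod p) ^ ((p - 1) / 2) := by
    have h := (ZMod.intCast_zmod_eq_zero_iff_dvd _ p).2 hL
    rw [Int.cast_sub, sub_eq_zero] at h
    rw [h]
    have e : (36 ^ 2 - 4 * (-36) : ℤ) = 12 ^ 2 * 10 := by norm_num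
    rw [e, Int.cast_pow, Int.cast_mul, Int.cast_pow, mul_pow, ← pow_mul]
    have e12 : ((12 : ℤ) : ZMod p) = 12 := by norm_cast
    have e10 : ((10 : ℤ) : ZMod p) = 10 := by norm_cast
    rw [e12, e10]
    have e2 : 2 * ((p - 1) / 2) = p - 1 := by
      obtain ⟨k, hk⟩ := hp.odd_of_ne_two hp2
      omega
    rw [e2]
    have e3 : (12 : ZMod p) ≠ 0 := by
      intro h
      have h' : ((12 : ℕ) : ZMod p) = 0 := by exact_mod_cast h
      rw [ZMod.natCast_eq_zero_iff] at h'
      have h4 : p ∣ 2 ^ 2 * 3 := by norm_num; exact h'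
      rcases (Nat.Prime.dvd_mul hp).1 h4 with h5 | h5
      · have := Nat.Prime.dvd_of_dvd_pow hp h5
        have := Nat.le_of_dvd (by norm_num) this
        omega
      · have := Nat.le_of_dvd (by norm_num) h5
        omega
    rw [ZMod.pow_card_sub_one_eq_one e3, one_mul]
  have hJ : ((jacobiSym 10 p : ℤ) : ZMod p) = (10 : ZMod p) ^ ((p - 1) / 2) := by
    rw [← jacobiSym.legendreSym.to_jacobiSym, legendreSym.eq_pow]
    have e : (p - 1) / 2 = p / 2 := by
      obtain ⟨k, hk⟩ := hp.odd_of_ne_two hp2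
      omega
    rw [e]
    push_cast
    rfl
  have hd : (p : ℤ) ∣ F - jacobiSym 10 p := by
    rw [← ZMod.intCast_zmod_eq_zero_iff_dvd]
    push_cast
    rw [hFc, hL', hJ, sub_self]
  obtain ⟨c, hc⟩ := hd
  refine ⟨c, ?_⟩
  rw [hF]
  linear_combination (p : ℤ) * hc

end Pool.Agent.H32.S36
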