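import Pool.Agent.H32.S36.Targets

set_option autoImplicit false

namespace Pool.Agent.H32.S36

namespace LMRaux

variable {R : Type} [CommRing R]

/-- shifted binomial coefficient -/
def pc (n : ℕ) : ℕ → ℕ
  | 0 => 0
  | (i + 1) => n.choose i

theorem pascal (n i : ℕ) : (n + 1).choose i = n.choose i + pc n i := by
  cases i with
  | zero => simp [pc]
  | succ i => rw [Nat.choose_succ_succ]; simp only [pc]; ring

theorem rel (n i : ℕ) : ((i : ℕ) : R) * (n.choose i : R) = ((n : R) + 1 - i) * (pc n i : R) := by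
  cases i with
  | zero => simp [pc]
  | succ i =>
    simp only [pc]
    have h := Nat.choose_succ_right_eq n i
    rcases le_or_gt i n with hi | hi
    · have h2 : ((n.choose (i + 1) : ℕ) : R) * ((i : R) + 1) = (n.choose i : R) * ((n : R) - i) := by
        rw [← Nat.cast_sub hi]
        exact_mod_cast congrArg (Nat.cast : ℕ → R) h
      push_cast
      linear_combination h2
    · rw [Nat.choose_eq_zero_of_lt hi, Nat.choose_eq_zero_of_lt (by omega)]
      simp

theorem idA (n i : ℕ) : ((n : R) + 1) * ((n + 1).choose i : R) ^ 2 =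
    ((n : R) + 1 + 2 * i) * (n.choose i : R) ^ 2 + (3 * (n : R) + 3 - 2 * i) * (pc n i : R) ^ 2 := by
  have h := rel (R := R) n i
  rw [pascal n i]
  push_cast
  linear_combination (2 * (pc n i : R) - 2 * (n.choose i : R)) * h

theorem idB (n i : ℕ) : (i : R) * ((n + 1).choose i : R) ^ 2 =
    (i : R) * (n.choose i : R) ^ 2 + (2 * (n : R) + 2 - i) * (pc n i : R) ^ 2 := by
  have h := rel (R := R) n i
  rw [pascal n i]
  push_cast
  linear_combination (2 * (pc n i : R)) * h

/-- general form of `Lh` and `Mh` -/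
def L (t w : R) (n : ℕ) : R := ∑ i ∈ Finset.range (n + 1), (n.choose i : R) ^ 2 * w ^ i * t ^ (n - i)
def M (t w : R) (n : ℕ) : R :=
  ∑ i ∈ Finset.range (n + 1), (i : R) * (n.choose i : R) ^ 2 * w ^ i * t ^ (n - i)

theorem tS (t w : R) (n : ℕ) (c : ℕ → R) : t * ∑ i ∈ Finset.range (n + 1),
    c i * (n.choose i : R) ^ 2 * w ^ i * t ^ (n - i) =
    ∑ i ∈ Finset.range (n + 2), c i * (n.choose i : R) ^ 2 * w ^ i * t ^ (n + 1 - i) := by
  rw [Finset.sum_range_succ _ (n + 1), Nat.choose_succ_self]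
  simp only [Nat.cast_zero, ne_eq, OfNat.ofNat_ne_zero, not_false_eq_true, zero_pow, mul_zero,
    zero_mul, add_zero]
  rw [Finset.mul_sum]
  refine Finset.sum_congr rfl fun i hi => ?_
  have hi' : i ≤ n := by have := Finset.mem_range.1 hi; omega
  have e : n + 1 - i = (n - i) + 1 := by omega
  rw [e, pow_succ]
  ring

theorem wS (t w : R) (n : ℕ) (c : ℕ → R) : w * ∑ i ∈ Finset.range (n + 1),
    c (i + 1) * (n.choose i : R) ^ 2 * w ^ i * t ^ (n - i) =
    ∑ i ∈ Finset.range (n + 2), c i * (pc n i : R) ^ 2 * w ^ i * t ^ (n + 1 - i) := by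
  rw [Finset.sum_range_succ' _ (n + 1)]
  simp only [pc, Nat.cast_zero, ne_eq, OfNat.ofNat_ne_zero, not_false_eq_true, zero_pow, mul_zero,
    zero_mul, add_zero]
  rw [Finset.mul_sum]
  refine Finset.sum_congr rfl fun i hi => ?_
  have e : n + 1 - (i + 1) = n - i := by omega
  rw [e, pow_succ]
  ring

theorem main1 (t w : R) (n : ℕ) : ((n : R) + 1) * L t w (n + 1) =
    ((n : R) + 1) * t * L t w n + (3 * (n : R) + 1) * w * L t w n
      + 2 * t * M t w n - 2 * w * M t w n := by
  have h1 := tS t w n (fun i => (n : R) + 1 + 2 * i)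
  have h2 := wS t w n (fun i => 3 * (n : R) + 3 - 2 * i)
  have e : ((n : R) + 1) * L t w (n + 1) =
      ∑ i ∈ Finset.range (n + 2), ((n : R) + 1 + 2 * i) * (n.choose i : R) ^ 2 * w ^ i * t ^ (n + 1 - i)
      + ∑ i ∈ Finset.range (n + 2),
        (3 * (n : R) + 3 - 2 * i) * (pc n i : R) ^ 2 * w ^ i * t ^ (n + 1 - i) := by
    unfold L
    rw [Finset.mul_sum, ← Finset.sum_add_distrib]
    refine Finset.sum_congr rfl fun i _ => ?_
    linear_combination (w ^ i * t ^ (n + 1 - i)) * idA (R := R) n i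
  rw [e, ← h1, ← h2]
  unfold L M
  simp only [Finset.mul_sum]
  rw [← Finset.sum_add_distrib, ← Finset.sum_add_distrib, ← Finset.sum_add_distrib,
    ← Finset.sum_sub_distrib]
  refine Finset.sum_congr rfl fun i _ => ?_
  push_cast
  ring

theorem main2 (t w : R) (n : ℕ) : M t w (n + 1) =
    (2 * (n : R) + 1) * w * L t w n + t * M t w n - w * M t w n := by
  have h1 := tS t w n (fun i => (i : R))
  have h2 := wS t w n (fun i => 2 * (n : R) + 2 - i)
  have e : M t w (n + 1) =
      ∑ i ∈ Finset.range (n + 2), (i : R) * (n.choose i : R) ^ 2 * w ^ i * t ^ (n + 1 - i)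
      + ∑ i ∈ Finset.range (n + 2),
        (2 * (n : R) + 2 - i) * (pc n i : R) ^ 2 * w ^ i * t ^ (n + 1 - i) := by
    unfold M
    rw [← Finset.sum_add_distrib]
    refine Finset.sum_congr rfl fun i _ => ?_
    linear_combination (w ^ i * t ^ (n + 1 - i)) * idB (R := R) n i
  rw [e, ← h1, ← h2]
  unfold L M
  simp only [Finset.mul_sum]
  rw [← Finset.sum_add_distrib, ← Finset.sum_add_distrib, ← Finset.sum_sub_distrib]
  refine Finset.sum_congr rfl fun i _ => ?_
  push_cast
  ring

theorem LhEq (n : ℕ) : Lh n = L tt (36 * uu) n := by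
  unfold Lh L
  refine Finset.sum_congr rfl fun i _ => ?_
  rw [mul_pow]; ring

theorem MhEq (n : ℕ) : Mh n = M tt (36 * uu) n := by
  unfold Mh M
  refine Finset.sum_congr rfl fun i _ => ?_
  rw [mul_pow]; ring

end LMRaux

open LMRaux in
theorem m_LMR : T_LMR := by
  intro n
  rw [LhEq, LhEq, MhEq, MhEq]
  constructor
  · rw [main1]; ring
  · rw [main2]; ring

end Pool.Agent.H32.S36
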