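import Pool.Agent.H32.S36.Targets

set_option autoImplicit false

namespace Pool.Agent.H32.S36

theorem LUC_gen {R : Type} [CommRing R] (p : ℕ) [hp : Fact p.Prime] [CharP R p] (hp2 : p ≠ 2)
    (P Q : ℤ) (w : R) (hw : w * w = (P : R) * w - (Q : R)) :
    (2 * w - (P : R)) * ((lucU P Q p - (P ^ 2 - 4 * Q) ^ ((p - 1) / 2) : ℤ) : R) = 0 := by
  have hU : ∀ n : ℕ, (2 * w - (P : R)) * ((lucU P Q n : ℤ) : R) = w ^ n - ((P : R) - w) ^ n ∧
      (2 * w - (P : R)) * ((lucU P Q (n + 1) : ℤ) : R) = w ^ (n + 1) - ((P : R) - w) ^ (n + 1) := by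
    intro n
    induction n with
    | zero =>
      constructor
      · simp [lucU]
      · simp only [lucU]
        push_cast
        ring
    | succ n ih =>
      refine ⟨ih.2, ?_⟩
      have e : lucU P Q (n + 1 + 1) = P * lucU P Q (n + 1) - Q * lucU P Q n := rfl
      rw [e]
      push_cast
      have h1 : w ^ (n + 1 + 1) = (P : R) * w ^ (n + 1) - Q * w ^ n := by
        have : w ^ (n + 1 + 1) = w ^ n * (w * w) := by ring
        rw [this, hw]; ring
      have h2 : ((P : R) - w) ^ (n + 1 + 1) =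
          (P : R) * ((P : R) - w) ^ (n + 1) - Q * ((P : R) - w) ^ n := by
        have : ((P : R) - w) ^ (n + 1 + 1) = ((P : R) - w) ^ n * (((P : R) - w) * ((P : R) - w)) := by
          ring
        rw [this]
        have h3 : ((P : R) - w) * ((P : R) - w) = (P : R) * ((P : R) - w) - Q := by
          linear_combination hw
        rw [h3]; ring
      rw [h1, h2]
      linear_combination (P : R) * ih.2 - (Q : R) * ih.1
  obtain ⟨k, hk⟩ := hp.out.odd_of_ne_two hp2
  have h1 := (hU p).1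
  have h2 : w ^ p - ((P : R) - w) ^ p = (2 * w - (P : R)) ^ p := by
    rw [← sub_pow_char]
    congr 1
    ring
  have h3 : (2 * w - (P : R)) ^ p = (2 * w - (P : R)) * ((P : R) ^ 2 - 4 * Q) ^ k := by
    have h4 : (2 * w - (P : R)) ^ 2 = (P : R) ^ 2 - 4 * Q := by
      linear_combination 4 * hw
    rw [hk, pow_succ, pow_mul, h4]; ring
  have hk' : (p - 1) / 2 = k := by omega
  rw [hk']
  push_cast
  rw [mul_sub, h1, h2, h3, sub_self]

theorem LUC_im (p : ℕ) [hp : Fact p.Prime] (a b x z : ZMod p)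
    (h : (⟨x, 2⟩ : QuadraticAlgebra (ZMod p) a b) * (⟨z, 0⟩ : QuadraticAlgebra (ZMod p) a b) = 0) :
    2 * z = 0 := by
  have := congrArg QuadraticAlgebra.im h
  simpa using this

theorem m_LUC : T_LUC := by
  intro p hp hp2 P Q
  have : Fact p.Prime := ⟨hp⟩
  have : CharP (QuadraticAlgebra (ZMod p) (-(Q : ZMod p)) (P : ZMod p)) p :=
    charP_of_injective_algebraMap
      (QuadraticAlgebra.algebraMap_injective (R := ZMod p) (a := -(Q : ZMod p))
        (b := (P : ZMod p))) p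
  have hw : (⟨0, 1⟩ : QuadraticAlgebra (ZMod p) (-(Q : ZMod p)) (P : ZMod p)) * ⟨0, 1⟩ =
      (P : QuadraticAlgebra (ZMod p) (-(Q : ZMod p)) (P : ZMod p)) * ⟨0, 1⟩ -
        (Q : QuadraticAlgebra (ZMod p) (-(Q : ZMod p)) (P : ZMod p)) := by
    ext
    · simp
    · simp
  have h5 := LUC_gen p hp2 P Q _ hw
  have e : (2 * (⟨0, 1⟩ : QuadraticAlgebra (ZMod p) (-(Q : ZMod p)) (P : ZMod p)) -
      (P : QuadraticAlgebra (ZMod p) (-(Q : ZMod p)) (P : ZMod p))) = ⟨-(P : ZMod p), 2⟩ := by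
    have e2 : (2 : QuadraticAlgebra (ZMod p) (-(Q : ZMod p)) (P : ZMod p)) = ⟨2, 0⟩ := rfl
    rw [e2]
    ext
    · simp
    · simp
  rw [e] at h5
  have h7 := LUC_im p _ _ _ _ h5
  have h8 : (2 : ZMod p) ≠ 0 := by
    intro h
    have : ((2 : ℕ) : ZMod p) = 0 := by exact_mod_cast h
    rw [ZMod.natCast_eq_zero_iff] at this
    have := (Nat.prime_dvd_prime_iff_eq hp Nat.prime_two).1 this
    exact hp2 this
  have h9 := (mul_eq_zero.1 h7).resolve_left h8
  exact (ZMod.intCast_zmod_eq_zero_iff_dvd _ p).1 h9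

end Pool.Agent.H32.S36
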