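import Pool.Agent.H32.S36.Targets

set_option autoImplicit false

namespace Pool.Agent.H32.S36

namespace SAAaux

/-- the summand -/
def t (a b j : ℕ) : ℚ := (a.choose j : ℚ) * (b.choose j : ℚ) * ((a + b + j).choose j : ℚ)

/-- the certificate -/
def G (a b : ℕ) : ℕ → ℚ
  | 0 => 0
  | (j + 1) => -(2 * a + b + 2) * ((b : ℚ) - j) * (a.choose j : ℚ) * (b.choose j : ℚ) *
      ((a + b + j + 1).choose j : ℚ)

theorem ch1 (n k : ℕ) : ((n.choose (k + 1) : ℕ) : ℚ) = ((n : ℚ) - k) * (n.choose k : ℚ) / (k + 1) := by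
  have h := Nat.choose_succ_right_eq n k
  have hk : ((k : ℚ) + 1) ≠ 0 := by positivity
  rw [eq_div_iff hk]
  rcases le_or_gt k n with hkn | hkn
  · have h2 : ((n.choose (k + 1) : ℕ) : ℚ) * (k + 1) = (n.choose k : ℚ) * ((n : ℚ) - k) := by
      rw [← Nat.cast_sub hkn]
      exact_mod_cast h
    rw [h2]; ring
  · rw [Nat.choose_eq_zero_of_lt hkn, Nat.choose_eq_zero_of_lt (by omega)]
    simp

theorem ch2 (n k : ℕ) : (((n + 1).choose (k + 1) : ℕ) : ℚ) = ((n : ℚ) + 1) * (n.choose k : ℚ) / (k + 1) := by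
  have h := Nat.add_one_mul_choose_eq n k
  have hk : ((k : ℚ) + 1) ≠ 0 := by positivity
  rw [eq_div_iff hk]
  have h2 : ((n : ℚ) + 1) * (n.choose k : ℚ) = ((n + 1).choose (k + 1) : ℚ) * (k + 1) := by
    exact_mod_cast h
  rw [h2]

theorem claim (a b j : ℕ) :
    ((a : ℚ) + 1) ^ 2 * t (a + 1) b j - ((a : ℚ) + b + 1) ^ 2 * t a b j = G a b (j + 1) - G a b j := by
  cases j with
  | zero =>
    simp only [t, G, Nat.choose_zero_right, Nat.cast_one, Nat.cast_zero]
    ring
  | succ k =>
    have hk : ((k : ℚ) + 1) ≠ 0 := by positivity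
    simp only [t, G]
    have e1 : a + 1 + b + (k + 1) = (a + b + k + 1) + 1 := by ring
    have e2 : a + b + (k + 1) = a + b + k + 1 := by ring
    have e3 : a + b + k + 1 + 1 = (a + b + k + 1) + 1 := rfl
    rw [e1, e2, ch2 a k, ch1 b k, ch2 (a + b + k + 1) k, ch1 a k, ch1 (a + b + k + 1) k]
    push_cast
    field_simp
    ring

end SAAaux

open SAAaux in
theorem m_SAA : T_SAA := by
  intro a b
  have key : ∀ a : ℕ, ∑ j ∈ Finset.range (a + 1), t a b j = (((a + b).choose a : ℕ) : ℚ) ^ 2 := by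
    intro a
    induction a with
    | zero => simp [t]
    | succ a ih =>
      have h1 : ∑ j ∈ Finset.range (a + 2), (((a : ℚ) + 1) ^ 2 * t (a + 1) b j -
          ((a : ℚ) + b + 1) ^ 2 * t a b j) = 0 := by
        rw [Finset.sum_congr rfl (fun j _ => claim a b j), Finset.sum_range_sub]
        simp [G]
      rw [Finset.sum_sub_distrib, ← Finset.mul_sum, ← Finset.mul_sum,
        Finset.sum_range_succ (fun j => t a b j) (a + 1), ih] at h1
      have h2 : t a b (a + 1) = 0 := by simp [t]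
      rw [h2, add_zero] at h1
      have h3 := ch2 (a + b) a
      have ha : ((a : ℚ) + 1) ≠ 0 := by positivity
      have e : a + 1 + b = a + b + 1 := by ring
      rw [e, h3]
      have e2 : Finset.range (a + 2) = Finset.range (a + 1 + 1) := rfl
      rw [e2] at h1
      rw [div_pow, eq_div_iff (by positivity)]
      push_cast
      linear_combination h1
  have h := key a
  have : ((∑ j ∈ Finset.range (a + 1), a.choose j * b.choose j * (a + b + j).choose j : ℕ) : ℚ) =
      (((a + b).choose a ^ 2 : ℕ) : ℚ) := by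
    push_cast
    rw [← h]
    rfl
  exact_mod_cast this

end Pool.Agent.H32.S36
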