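import Pool.Agent.H32.S36.Targets

set_option autoImplicit false

namespace Pool.Agent.H32.S36

namespace BIDaux

theorem chr (n k : ℕ) : ((n.choose (k + 1) : ℕ) : ℤ) * ((k : ℤ) + 1) = ((n : ℤ) - k) * (n.choose k : ℤ) := by
  have h := Nat.choose_succ_right_eq n k
  rcases le_or_gt k n with hkn | hkn
  · rw [← Nat.cast_sub hkn, mul_comm ((n - k : ℕ) : ℤ)]
    exact_mod_cast h
  · rw [Nat.choose_eq_zero_of_lt hkn, Nat.choose_eq_zero_of_lt (by omega)]
    simp

theorem chs (n k : ℕ) : ((n : ℤ) + 1) * (n.choose k : ℤ) = (((n + 1).choose (k + 1) : ℕ) : ℤ) * ((k : ℤ) + 1) := by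
  exact_mod_cast Nat.add_one_mul_choose_eq n k

/-- the factor in front -/
theorem front (m i : ℕ) : (m : ℤ) * ((m - 1).choose i : ℕ) = ((m : ℤ) - i) * (m.choose i : ℤ) := by
  cases m with
  | zero =>
    cases i with
    | zero => simp
    | succ i => simp
  | succ m =>
    have h1 := chs m i
    have h2 := chr (m + 1) i
    simp only [Nat.add_sub_cancel]
    push_cast at h1 h2 ⊢
    linear_combination h1 + h2

theorem term (m i j : ℕ) :
    ((m : ℤ) + 1) * ((m + 1 + j).choose j : ℤ) * ((m + 1).choose (i + 1 + j) : ℤ)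
      - ((m : ℤ) - i) * ((m + j).choose j : ℤ) * (m.choose (i + 1 + j) : ℤ) =
    (2 * (m : ℤ) + 1 - i) * ((m + j).choose j : ℤ) * (m.choose (i + j) : ℤ) := by
  have h1 : ((m : ℤ) + 1) * ((m + 1 + j).choose j : ℤ) = ((m : ℤ) + 1 + j) * ((m + j).choose j : ℤ) := by
    have h := Nat.choose_mul_succ_eq (m + j) j
    have e1 : m + j + 1 - j = m + 1 := by omega
    have e2 : m + j + 1 = m + 1 + j := by ring
    rw [e1, e2] at h
    have h' : ((m + j).choose j : ℤ) * ((m : ℤ) + 1 + j) = ((m + 1 + j).choose j : ℤ) * ((m : ℤ) + 1) := by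
      exact_mod_cast h
    linear_combination -h'
  have h2 := chs m (i + j)
  have h3 := chr m (i + j)
  have e : i + 1 + j = i + j + 1 := by ring
  rw [e]
  have hne : ((i : ℤ) + j + 1) ≠ 0 := by positivity
  refine mul_left_cancel₀ hne ?_
  push_cast at h2 h3
  generalize ((m + 1 + j).choose j : ℤ) = A1 at *
  generalize ((m + j).choose j : ℤ) = A at *
  generalize ((m + 1).choose (i + j + 1) : ℤ) = B1 at *
  generalize (m.choose (i + j + 1) : ℤ) = B2 at *
  generalize (m.choose (i + j) : ℤ) = B at *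
  generalize (m : ℤ) = m at *
  generalize (i : ℤ) = i at *
  generalize (j : ℤ) = j at *
  linear_combination ((i + j + 1) * B1) * h1 - ((m + 1 + j) * A) * h2 - (A * (m - i)) * h3

end BIDaux

open BIDaux in
theorem m_BID (h1 : T_SAA) : T_BID := by
  intro m i
  rw [front]
  induction m with
  | zero =>
    cases i with
    | zero => simp [bb]
    | succ i => simp [bb]
  | succ m ih =>
    have e0 : bb (m + 1) i = bb m i + (2 * (m : ℤ) + 1 - i) * ((m.choose i : ℕ) : ℤ) ^ 4 := by
      unfold bb
      rw [Finset.sum_range_succ]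
    rw [e0, ih]
    have ef := front (m + 1) i
    rw [← ef]
    simp only [Nat.add_sub_cancel]
    rcases lt_or_ge m i with hmi | hmi
    · rw [Nat.choose_eq_zero_of_lt hmi]
      simp
    have key : ((m : ℤ) + 1) * ∑ j ∈ Finset.range (i + 1),
          ((i.choose j * (i + j).choose j * (m + 1 + j).choose j * (m + 1).choose (i + 1 + j) : ℕ) : ℤ)
        - ((m : ℤ) - i) * ∑ j ∈ Finset.range (i + 1),
          ((i.choose j * (i + j).choose j * (m + j).choose j * m.choose (i + 1 + j) : ℕ) : ℤ) =
        (2 * (m : ℤ) + 1 - i) * ((m.choose i : ℕ) : ℤ) ^ 3 := by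
      rw [Finset.mul_sum, Finset.mul_sum, ← Finset.sum_sub_distrib]
      have hs := h1 i (m - i)
      have hs' : ∑ j ∈ Finset.range (i + 1), ((i.choose j : ℤ) * ((m - i).choose j : ℤ) *
          ((m + j).choose j : ℤ)) = ((m.choose i : ℕ) : ℤ) ^ 2 := by
        have e : i + (m - i) = m := by omega
        rw [e] at hs
        exact_mod_cast hs
      have e2 : (2 * (m : ℤ) + 1 - i) * ((m.choose i : ℕ) : ℤ) ^ 3 =
          (2 * (m : ℤ) + 1 - i) * ((m.choose i : ℕ) : ℤ) * ((m.choose i : ℕ) : ℤ) ^ 2 := by ring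
      rw [e2, ← hs', Finset.mul_sum]
      refine Finset.sum_congr rfl fun j _ => ?_
      have ht := term m i j
      have hc : (m.choose (i + j) : ℤ) * ((i + j).choose j : ℤ) =
          (m.choose i : ℤ) * ((m - i).choose j : ℤ) := by
        rcases le_or_gt (i + j) m with h | h
        · have h3 := Nat.choose_mul (n := m) (Nat.le_add_right i j)
          have e3 : i + j - i = j := by omega
          rw [e3] at h3
          have h4 : (i + j).choose i = (i + j).choose j := by
            rw [← Nat.choose_symm_add]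
          rw [h4] at h3
          exact_mod_cast h3
        · rw [Nat.choose_eq_zero_of_lt h, Nat.choose_eq_zero_of_lt (show m - i < j by omega)]
          simp
      push_cast
      linear_combination ((i.choose j : ℤ) * ((i + j).choose j : ℤ)) * ht +
        ((2 * (m : ℤ) + 1 - i) * ((m + j).choose j : ℤ) * (i.choose j : ℤ)) * hc
    push_cast at key ⊢
    linear_combination (-(m.choose i : ℤ)) * key

end Pool.Agent.H32.S36
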